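import Pool.Agent.helper96.LK.SpecR

/-!
# RD: cycles of the cancelled field
-/

open PowerSeries Filter Topology Set

noncomputable section

namespace Pool.Agent.LK

open Pool.Agent.helper59.LC Pool.Agent.helper59.LD

theorem RD_fac {n K : ℕ} (Q : QPt n K) (H : MvPolynomial (Fin 2) ℂ) (ε : ℝ) (z : ℂ) :
    Zf Q.R (Q.dn * H) ε z = Ez Q.dn z * Ez (Q.Wq H ε) z := by
  have h : Wp Q.R (Q.dn * H) ε = Q.dn * Q.Wq H ε := by
    have h1 := Q.hW
    rw [Wp, QPt.Wq, mul_add, h1, W0]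
    ring
  rw [helper59.LD.Zf, h, Ez_mul]

theorem RD_real {n K : ℕ} (Q : QPt n K) (z : ℂ) : (((Ez Q.dn z).re : ℝ) : ℂ) = Ez Q.dn z := by
  have h := Ez_csw Q.dn z
  rw [Q.dreal] at h
  exact (Complex.conj_eq_iff_re.1 h.symm)

/-- Transfer of one periodic orbit by a positive factor. -/
theorem RD_one {V F : ℂ → ℂ} {ρ : ℂ → ℝ} (hV : ∀ z, V z = ρ z * F z) {c : ℝ → ℂ}
    (hc : IsPer V c) (hcont : Continuous ρ) (hpos : ∀ t, 0 < ρ (c t)) :
    ∃ χ : ℝ → ℝ, Function.Surjective χ ∧ IsPer F fun t => c (χ t) := by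
  obtain ⟨hd, T, hT, hper⟩ := hc
  have hcc : Continuous c := continuous_iff_continuousAt.2 fun t => (hd t).continuousAt
  have hd' : ∀ t, HasDerivAt c ((fun z => (ρ z : ℂ) * F z) (c t)) t := by
    intro t
    have := hd t
    rw [hV] at this
    exact this
  obtain ⟨χ, h1, h2, T', hT', h3⟩ := time_change (F := fun z => (ρ z : ℂ) * F z)
    (τ := fun z => (ρ z)⁻¹) hT hd' hper ((hcont.comp hcc).inv₀ fun t => (hpos t).ne')
    (fun t => inv_pos.2 (hpos t))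
  refine ⟨χ, h1, fun t => ?_, T', hT', h3⟩
  refine (h2 t).congr_deriv ?_
  have h4 : ((ρ (c (χ t)) : ℝ) : ℂ) ≠ 0 := by exact_mod_cast (hpos (χ t)).ne'
  push_cast
  field_simp

/-- The converse transfer. -/
theorem RD_two {V F : ℂ → ℂ} {ρ : ℂ → ℝ} (hV : ∀ z, V z = ρ z * F z) {c : ℝ → ℂ}
    (hc : IsPer F c) (hcont : Continuous ρ) (hpos : ∀ t, 0 < ρ (c t)) :
    ∃ χ : ℝ → ℝ, Function.Surjective χ ∧ IsPer V fun t => c (χ t) := by
  obtain ⟨hd, T, hT, hper⟩ := hc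
  have hcc : Continuous c := continuous_iff_continuousAt.2 fun t => (hd t).continuousAt
  obtain ⟨χ, h1, h2, T', hT', h3⟩ := time_change (F := F)
    (τ := ρ) hT hd hper (hcont.comp hcc) hpos
  refine ⟨χ, h1, fun t => ?_, T', hT', h3⟩
  refine (h2 t).congr_deriv ?_
  rw [hV]

/-- RD. -/
theorem RD (hRC : RC_stmt) : RD_stmt := by
  intro n K Q U hU
  set ρ : ℂ → ℝ := fun z => (Ez Q.dn z).re with hρ
  have hρc : Continuous ρ := Complex.continuous_re.comp (Ez_contDiff Q.dn).continuous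
  set U₀ : Set ℂ := {z | 0 < ρ z} with hU₀
  have hU₀o : IsOpen U₀ := isOpen_lt continuous_const hρc
  have h0 : (0 : ℂ) ∈ U₀ := by
    show 0 < (Ez Q.dn 0).re
    rw [Ez_zero, Q.dconst]
    simp
  obtain ⟨H, hH, ε₀, hε₀, hall⟩ := hRC n K Q (U ∩ U₀) (inter_mem hU (hU₀o.mem_nhds h0))
  refine ⟨H, hH, ε₀, hε₀, fun ε hε hε' => ?_⟩
  obtain ⟨c, hinj, hc⟩ := hall ε hε hε'
  have hV : ∀ z, Zf Q.R (Q.dn * H) ε z = ρ z * Ez (Q.Wq H ε) z := by
    intro z
    rw [RD_fac, hρ]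
    simp only
    rw [RD_real]
  have hpos : ∀ j t, 0 < ρ (c j t) := fun j t => ((hc j).2.2.1 ⟨t, rfl⟩).2
  choose χ hχs hχp using fun j => RD_one hV (hc j).1 hρc (hpos j)
  have hran : ∀ j, range (fun t => c j (χ j t)) = range (c j) := fun j =>
    (hχs j).range_comp (c j)
  refine ⟨fun j t => c j (χ j t), ?_, fun j => ⟨hχp j, ?_, ?_, ?_⟩⟩
  · intro i j hij
    simp only [hran] at hij
    exact hinj hij
  · by_contra hcon
    push Not at hcon
    obtain ⟨t, ht⟩ := (hc j).2.1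
    apply ht
    have h1 : ∀ s, c j s = c j (χ j 0) := by
      intro s
      obtain ⟨s', hs'⟩ := hχs j s
      rw [← hs']
      exact hcon s'
    rw [h1 t, h1 0]
  · rw [hran]
    exact fun x hx => ((hc j).2.2.1 hx).1
  · obtain ⟨O, hO, hcO, hu⟩ := (hc j).2.2.2
    refine ⟨O ∩ U₀, hO.inter hU₀o, ?_, ?_⟩
    · rw [hran]
      exact fun x hx => ⟨hcO hx, ((hc j).2.2.1 hx).2⟩
    · intro c' hc' hr
      have hpos' : ∀ t, 0 < ρ (c' t) := fun t => (hr ⟨t, rfl⟩).2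
      obtain ⟨χ', hs', hp'⟩ := RD_two hV hc' hρc hpos'
      have hran' : range (fun t => c' (χ' t)) = range c' := hs'.range_comp c'
      rw [hran, ← hran']
      refine hu _ hp' ?_
      rw [hran']
      exact fun x hx => (hr hx).1

end Pool.Agent.LK
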